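import Mathlib
import Pool.Agent.H651R2.CB.All
import Pool.Agent.H651R2.CB.RES
set_option autoImplicit false

/-!
# `C* = 2`: the sharp L²-L¹ constant of homogeneous quadratic forms on the discrete cube
(MP_9cbc66_an, Q1).
-/

namespace Pool.Agent.Results.MP_9cbc66_an.ConstantTwo

/-- The discrete cube `{-1,1}^n`. -/
abbrev Cube (n : ℕ) := Fin n → ℤˣ

/-- `f` is a 2-homogeneous polynomial on the cube. -/
def IsTwoHom {n : ℕ} (f : Cube n → ℝ) : Prop :=
  ∃ a : Fin n → Fin n → ℝ, ∀ x, f x = ∑ i, ∑ j, if i < j then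
    a i j * ((x i : ℤ) : ℝ) * ((x j : ℤ) : ℝ) else 0

/-- The `L^p` norm on the cube for the uniform probability measure. -/
noncomputable def lpNorm {n : ℕ} (p : ℝ) (f : Cube n → ℝ) : ℝ :=
  ((2 : ℝ) ^ (-(n : ℝ)) * ∑ x, |f x| ^ p) ^ (1 / p)

/-- The constant `C*` of the problem: the supremum of `‖f‖₂ / ‖f‖₁` over all `n ≥ 1` and all
nonzero 2-homogeneous polynomials `f` on `{-1,1}^n`. -/
noncomputable def Cstar : ℝ :=
  sSup {t : ℝ | ∃ (n : ℕ) (f : Cube n → ℝ), 1 ≤ n ∧ IsTwoHom f ∧ f ≠ 0 ∧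
    t = lpNorm 2 f / lpNorm 1 f}

/-- `C* = 2`: the number `2` is the greatest element of the set of all ratios `‖f‖₂ / ‖f‖₁`
(`f` a nonzero 2-homogeneous polynomial on some cube), so that `‖f‖₂ ≤ 2 ‖f‖₁` always and the
constant `2` cannot be lowered. -/
theorem result :
    IsGreatest {t : ℝ | ∃ (n : ℕ) (f : Cube n → ℝ), 1 ≤ n ∧ IsTwoHom f ∧ f ≠ 0 ∧
      t = lpNorm 2 f / lpNorm 1 f} 2 ∧
    Cstar = 2 := by
  have key : ∀ (n : ℕ) (f : Cube n → ℝ) (c : ℝ), IsTwoHom f →
      lpNorm 2 f ≤ 2 * lpNorm 1 (fun x => c + f x) := by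
    intro n f c hf
    obtain ⟨a, ha⟩ := hf
    set A : Fin n → Fin n → ℝ := fun i j => if i < j then a i j else if j < i then a j i else 0
      with hAdef
    have hA : H651CB.SymZ A := by
      constructor
      · intro i j
        simp only [hAdef]
        rcases lt_trichotomy i j with h | h | h
        · rw [if_pos h, if_neg h.asymm, if_pos h]
        · subst h; rfl
        · rw [if_neg h.asymm, if_pos h, if_pos h]
      · intro i
        simp [hAdef]
    have hfq : ∀ x, f x = H651CB.qd A x := by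
      intro x
      have e1 : ∀ i j, A i j * (H651CB.sg x i * H651CB.sg x j) =
          (if i < j then a i j * ((x i : ℤ) : ℝ) * ((x j : ℤ) : ℝ) else 0) +
          (if j < i then a j i * ((x j : ℤ) : ℝ) * ((x i : ℤ) : ℝ) else 0) := by
        intro i j
        simp only [hAdef, H651CB.sg]
        rcases lt_trichotomy i j with h | h | h
        · rw [if_pos h, if_pos h, if_neg h.asymm]; ring
        · subst h; simp
        · rw [if_neg h.asymm, if_pos h, if_neg h.asymm, if_pos h]; ring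
      unfold H651CB.qd
      simp_rw [e1, Finset.sum_add_distrib]
      rw [Finset.sum_comm (f := fun i j => if j < i then a j i * ((x j : ℤ) : ℝ) * ((x i : ℤ) : ℝ)
        else 0), ha x]
      ring
    have h1 := H651CB.main_ineq n A c hA
    have h2 := H651CB.res_second A hA
    have hN : (0 : ℝ) < 2 ^ n := by positivity
    have h3 : ((2 : ℝ) ^ n)⁻¹ * ∑ x, f x ^ 2 = 1 / 2 * ∑ i, ∑ j, A i j ^ 2 := by
      simp_rw [hfq]
      rw [h2, inv_mul_cancel_left₀ hN.ne']
    have h4 : H651CB.ex (fun x => |c + H651CB.qd A x|) = lpNorm 1 (fun x => c + f x) := by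
      have : lpNorm 1 (fun x => c + f x) = ((2 : ℝ) ^ n)⁻¹ * ∑ x, |c + f x| :=
        H651CB.res_lp1 (fun x => c + f x)
      rw [this]
      unfold H651CB.ex
      simp_rw [hfq]
    rw [h4] at h1
    have h5 : 0 ≤ lpNorm 1 (fun x => c + f x) := by
      rw [← h4]
      unfold H651CB.ex
      positivity
    have h6 : lpNorm 2 f = Real.sqrt (((2 : ℝ) ^ n)⁻¹ * ∑ x, f x ^ 2) := H651CB.res_lp2 f
    rw [h6, h3]
    rw [Real.sqrt_le_left (by positivity)]
    nlinarith
  have key0 : ∀ (n : ℕ) (f : Cube n → ℝ), IsTwoHom f → lpNorm 2 f ≤ 2 * lpNorm 1 f := by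
    intro n f hf
    have := key n f 0 hf
    simpa using this
  have hG : IsGreatest {t : ℝ | ∃ (n : ℕ) (f : Cube n → ℝ), 1 ≤ n ∧ IsTwoHom f ∧ f ≠ 0 ∧
      t = lpNorm 2 f / lpNorm 1 f} 2 := by
    constructor
    · refine ⟨4, fun x => (H651CB.res_g x : ℝ), by norm_num, ?_, ?_, ?_⟩
      · refine ⟨fun i j => if i < 2 ∧ 2 ≤ j then 1 else 0, fun x => ?_⟩
        simp only [Fin.sum_univ_four, H651CB.res_g]
        simp
        ring
      · intro h
        have h1 := congrFun h (fun _ => 1)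
        simp [H651CB.res_g] at h1
      · have e1 : lpNorm 1 (fun x : Cube 4 => (H651CB.res_g x : ℝ))
            = ((2 : ℝ) ^ 4)⁻¹ * ∑ x : Cube 4, |(H651CB.res_g x : ℝ)| := H651CB.res_lp1 _
        have e2 : lpNorm 2 (fun x : Cube 4 => (H651CB.res_g x : ℝ))
            = Real.sqrt (((2 : ℝ) ^ 4)⁻¹ * ∑ x : Cube 4, (H651CB.res_g x : ℝ) ^ 2) :=
          H651CB.res_lp2 _
        rw [e1, e2]
        have h1 : ∑ x : Cube 4, |(H651CB.res_g x : ℝ)| = 16 := by
          have := H651CB.res_g1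
          exact_mod_cast this
        have h2 : ∑ x : Cube 4, (H651CB.res_g x : ℝ) ^ 2 = 64 := by
          have := H651CB.res_g2
          exact_mod_cast this
        rw [h1, h2]
        have h3 : ((2:ℝ) ^ 4)⁻¹ * 64 = 2 ^ 2 := by norm_num
        rw [h3, Real.sqrt_sq (by norm_num)]
        norm_num
    · rintro t ⟨n, f, -, hf, -, rfl⟩
      have h1 := key0 n f hf
      have h5 : 0 ≤ lpNorm 1 f := by
        have : lpNorm 1 f = ((2 : ℝ) ^ n)⁻¹ * ∑ x, |f x| := H651CB.res_lp1 f
        rw [this]; positivity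
      exact div_le_of_le_mul₀ h5 (by norm_num) h1
  exact ⟨hG, hG.csSup_eq⟩

end Pool.Agent.Results.MP_9cbc66_an.ConstantTwo
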